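import Mathlib

/-!
# Square roots of metric spaces under the Euclidean product metric are not unique

Two metric spaces `A` and `B` (both countable subsets of the real line) such that the squares
`A × A` and `B × B`, each with the Euclidean product metric, are isometric, while `A` and `B`
are not isometric.  The example: `A` is the set of rational numbers and `B` is the set of
rational multiples of the square root of two.
-/

namespace Pool.Agent.Results.MP_1231ed_gt.SquareRootNotUnique

/-- There are sets `A`, `B` of real numbers, countable, which with the metric `|x - y|` of the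
real line are not isometric to each other, and such that `A × A` and `B × B` with the Euclidean
product metric are isometric. -/
theorem result :
    ∃ A B : Set ℝ, A.Countable ∧ B.Countable ∧
      (∃ φ : (A × A) ≃ (B × B), ∀ p q : A × A,
        Real.sqrt (dist (φ p).1 (φ q).1 ^ 2 + dist (φ p).2 (φ q).2 ^ 2) =
          Real.sqrt (dist p.1 q.1 ^ 2 + dist p.2 q.2 ^ 2)) ∧
      ¬ ∃ ψ : A ≃ B, ∀ x y : A, dist (ψ x) (ψ y) = dist x y := by
  have h2 : Real.sqrt 2 * Real.sqrt 2 = 2 := Real.mul_self_sqrt (by norm_num)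
  have h2pos : 0 < Real.sqrt 2 := Real.sqrt_pos.mpr (by norm_num)
  have h3 : Real.sqrt 2 ^ 2 = 2 := Real.sq_sqrt (by norm_num)
  refine ⟨Set.range (fun q : ℚ => (q : ℝ)), Set.range (fun q : ℚ => Real.sqrt 2 * (q : ℝ)),
    Set.countable_range _, Set.countable_range _, ?_, ?_⟩
  · refine ⟨⟨fun p => (⟨(p.1.1 + p.2.1) / Real.sqrt 2, ?_⟩, ⟨(p.1.1 - p.2.1) / Real.sqrt 2, ?_⟩),
      fun p => (⟨(p.1.1 + p.2.1) / Real.sqrt 2, ?_⟩, ⟨(p.1.1 - p.2.1) / Real.sqrt 2, ?_⟩),
      ?_, ?_⟩, ?_⟩
    · obtain ⟨a, ha⟩ := p.1.2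
      obtain ⟨b, hb⟩ := p.2.2
      refine ⟨(a + b) / 2, ?_⟩
      simp only at ha hb ⊢
      rw [← ha, ← hb]
      push_cast
      field_simp
      rw [h3]
      ring
    · obtain ⟨a, ha⟩ := p.1.2
      obtain ⟨b, hb⟩ := p.2.2
      refine ⟨(a - b) / 2, ?_⟩
      simp only at ha hb ⊢
      rw [← ha, ← hb]
      push_cast
      field_simp
      rw [h3]
      ring
    · obtain ⟨a, ha⟩ := p.1.2
      obtain ⟨b, hb⟩ := p.2.2
      refine ⟨a + b, ?_⟩
      simp only at ha hb ⊢
      rw [← ha, ← hb]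
      push_cast
      field_simp
    · obtain ⟨a, ha⟩ := p.1.2
      obtain ⟨b, hb⟩ := p.2.2
      refine ⟨a - b, ?_⟩
      simp only at ha hb ⊢
      rw [← ha, ← hb]
      push_cast
      field_simp
    · intro p
      ext
      · simp only
        field_simp
        rw [h3]
        ring
      · simp only
        field_simp
        rw [h3]
        ring
    · intro p
      ext
      · simp only
        field_simp
        rw [h3]
        ring
      · simp only
        field_simp
        rw [h3]
        ring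
    · intro p q
      congr 1
      simp only [Equiv.coe_fn_mk, Subtype.dist_eq, Real.dist_eq, sq_abs]
      rw [← sub_div, ← sub_div, div_pow, div_pow, h3]
      ring
  · rintro ⟨ψ, hψ⟩
    have h := hψ ⟨((0 : ℚ) : ℝ), ⟨0, rfl⟩⟩ ⟨((1 : ℚ) : ℝ), ⟨1, rfl⟩⟩
    obtain ⟨a, ha⟩ := (ψ ⟨((0 : ℚ) : ℝ), ⟨0, rfl⟩⟩).2
    obtain ⟨b, hb⟩ := (ψ ⟨((1 : ℚ) : ℝ), ⟨1, rfl⟩⟩).2
    rw [Subtype.dist_eq, Subtype.dist_eq, Real.dist_eq, Real.dist_eq] at h
    simp only at ha hb
    rw [← ha, ← hb, ← mul_sub, abs_mul, abs_of_pos h2pos] at h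
    have h' : Real.sqrt 2 * |((a - b : ℚ) : ℝ)| = 1 := by
      push_cast
      rw [h]
      norm_num
    have hne : ((|a - b| : ℚ) : ℝ) ≠ 0 := by
      intro h0
      rw [← Rat.cast_abs, h0, mul_zero] at h'
      exact zero_ne_one h'
    apply irrational_sqrt_two
    refine ⟨1 / |a - b|, ?_⟩
    rw [← Rat.cast_abs] at h'
    rw [Rat.cast_div, Rat.cast_one, div_eq_iff hne]
    exact h'.symm

end Pool.Agent.Results.MP_1231ed_gt.SquareRootNotUnique
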